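import Mathlib
import Pool.Agent.Helper67.QP.Final

/-!
# Refutations of quantified Boolean formulas modulo the polynomial hierarchy

The true quantified Boolean formulas are complete for `PSPACE`. Chen (Proof complexity modulo the
polynomial hierarchy, 2017) proposed to attack `PH ≠ PSPACE` through refutation systems for false
formulas in which everything that can be decided with a bounded number `k` of rounds of quantifiers
is free: the correctness of a refutation is then decided in `PH`, and superpolynomial lower bounds
on the size of refutations are due to the alternation alone. If for some `k` all false formulas had
refutations of polynomial size in the sense of the structure `Refutation Φ k s`, with lines given by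
Boolean circuits, then `PSPACE = PH`. Lower bounds of this kind were known for systems whose lines
are clauses (Chen; Beyersdorff, Hinde, Pich), and for bounded depth lines only when the inferences
are propositional steps and universal reductions (Beyersdorff, Bonacina, Chew).

Here the lines are arbitrary circuits of bounded depth with AND, OR, NOT and `MOD p` gates, for any
prime `p`, whose inputs may moreover be arbitrary polynomials of degree `D` over `Z/p`, and every
inference is allowed which can be justified by a game with `k` rounds of quantifiers. The explicit
formulas `hard n r` have short refutations with very simple lines if `r` rounds are free, but all
refutations have exponential size if only `k < r` rounds are free. So for bounded depth lines the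
systems modulo the levels of the polynomial hierarchy form a strict hierarchy, in which every level
is exponentially stronger than the previous one, and no number of free rounds up to a power of the
number of variables is enough for polynomial size.

Proof. From a refutation one extracts a winning strategy of the universal player: it follows the
earliest line which it can still falsify. In the formulas `hard n r` every answer of the universal
player is forced, and a strategy with `k` rounds, in which some answers have to be given too early,
cannot survive `k` rounds; so the earliest line which can be falsified improves within `k` rounds
after the right answer to the first hard question, and it does not improve after a wrong answer.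
This computes the majority function by a circuit of bounded depth from the values of the lines at
`4 ^ r` substitutions, in contradiction to the theorem of Razborov and Smolensky, which is proved
here from the approximation theorem of the module `W856.Corner7`.
-/

namespace Pool.Agent.Results.MP_a2d820_lc.FreeRoundRefutations

open Pool.Agent.Helper67.QP

/-- 1. The formulas `hard n r`, `r ≥ 1`, are false, and if all the reasoning with `r` rounds is free,
then they have refutations with `2 n + 2` lines each of which is a disjunction of polynomials of
degree at most two (over `Z/p` for every prime `p`).
2. Let `p` be a prime. For all `D` and `d` there is `ε > 0` such that for all `k < r` and all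
refutations of `hard n r` with `s` lines in which all the reasoning with `k` rounds is free: if the
lines are computed by circuits of depth at most `d` with at most `S` AND and OR gates, in which the
`MOD p` gates and the polynomials of degree at most `D` over `Z/p` are free in size, then
`s (S + 2) 4^r ≥ 2^(ε n^(1/(2d+4)))`. -/
theorem result :
    (∀ n r : ℕ, 1 ≤ r → ¬ (hard n r).IsTrue ∧ ∃ R : Refutation (hard n r) r (2 * n + 2),
      ∀ p : ℕ, p.Prime → ∀ j, Computed p 2 1 1 (R.line j).val) ∧
    ∀ p D d : ℕ, p.Prime → ∃ ε : ℝ, 0 < ε ∧ ∀ n r k s S : ℕ, k < r →
      ∀ R : Refutation (hard n r) k s, (∀ j, Computed p D d S (R.line j).val) →
        (2 : ℝ) ^ (ε * (n : ℝ) ^ ((1 : ℝ) / (2 * d + 4))) ≤ (s : ℝ) * (S + 2) * 4 ^ r :=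
  ⟨fun n r hr => ⟨hard_false n r, hard_sharp n r hr⟩, fun p D d hp => asymptotic p D d hp⟩

end Pool.Agent.Results.MP_a2d820_lc.FreeRoundRefutations
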