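import Pool.Agent.Helper67.NW.Encode

/-!
# PH = PSPACE if and only if the oracles which put PSPACE into PH(S) are not polylogarithmically null

Consider the set of the oracles `S` such that every `PSPACE` language (without oracle) is in
`PH(S)`. The sizes of sets of oracles are measured by gauges: a set is null for the gauge `f` if it
can be covered by cylinders, given by finite sequences `σ`, with arbitrarily small sum of
`2 ^ (f |σ| - |σ|)`. A set of measure zero need not be null for `f`, if `f` is unbounded.

* `PH = PSPACE` (no oracle) if and only if for some `c` the set is not null for the gauge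
  `(log N) ^ c`. (Nisan and Wigderson proved that a language is in `PH` if it is in `PH(S)` for a
  set of oracles `S` of positive measure.)
* This cannot be extended to the gauges `2 ^ (log N) ^ ε`, `ε > 0`: for them the set is never null.

Proof. Suppose that, for all `n`, a fixed machine with a random oracle is right about all inputs
of length `n` with probability at least `2 ^ -d(n)`, `d` a polynomial. Fixing the answers on `O(d)`
inputs, chosen greedily, one gets a condition under which every other input is treated rightly with
probability at least `15/16`. The generator of Nisan and Wigderson, with the design given by the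
graphs of the polynomials over a prime field whose coefficients are the digits of a string, fools
the condition with exponentially small error (switching lemma and hybrid argument), and linearly
many seeds, given as advice, decide by majority. This gives `PH/poly`; for `PSPACE` the advice is
removed by the method of Karp and Lipton: it is guessed, and verified for the configurations of a
computation in polynomial space at successive times. (In fact `L` is in `PH/poly` if and only if for
some `c` the set of the oracles `S` with `L` in `PH(S)` is not null for the gauge `(log N) ^ c`:
`phpoly_iff_not_null` below.)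

(helper67)
-/

set_option autoImplicit false

open Pool.Agent.NPC Pool.Agent.H620R2.Gauge Pool.Agent.Helper67.PHP Pool.Agent.Helper67.NW

/-- The characterisation of the languages in `PH/poly` by gauges. -/
theorem Pool.Agent.Helper67.NW.phpoly_iff_not_null (L : Set (List Bool)) :
    IsPHpoly noOracle L ↔ ∃ c : ℕ, ¬ Null (fun N => (Real.logb 2 N) ^ c) {S | IsPH S L} := by
  refine ⟨not_null_of_phpoly, ?_⟩
  rintro ⟨c, hc⟩
  by_contra hL
  refine hc (null_of_not_phpoly noOracle L hL _ (Polynomial.X ^ c) fun j => ?_)
  have e : Real.logb 2 ((2 ^ j : ℕ) : ℝ) = j := by
    push_cast
    rw [Real.logb_pow, Real.logb_self_eq_one (by norm_num), mul_one]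
  rw [e]
  simp

theorem Pool.Agent.Results.MP_a2d820_lc.PolylogGauge.result :
    ((∀ L, IsPSPACE noOracle L → IsPH noOracle L) ↔
      ∃ c : ℕ, ¬ Null (fun N => (Real.logb 2 N) ^ c)
        {S | ∀ L, IsPSPACE noOracle L → IsPH S L}) ∧
    (∀ ε : ℝ, 0 < ε → ¬ Null (fun N => 2 ^ (Real.logb 2 N) ^ ε)
        {S | ∀ L, IsPSPACE noOracle L → IsPH S L}) := by
  refine ⟨⟨fun H => ⟨0, ?_⟩, ?_⟩, ?_⟩
  · refine not_null_of_code _ ∅ (fun B => B) (fun B y _ => rfl) ?_ _ fun B L hL =>
      ph_relativize (H L hL) B
    refine Filter.Eventually.of_forall fun N => ?_
    simp
  · rintro ⟨c, hc⟩ L hL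
    refine karp_lipton (fun L' hL' => (phpoly_iff_not_null L').2
      ⟨c, fun hnull => hc (hnull.mono ?_)⟩) hL
    intro S hS
    exact hS L' hL'
  · intro ε hε
    refine not_null _ (ε / 2) (half_pos hε) ?_ _ ?_
    · rw [Filter.eventually_atTop]
      refine ⟨3, fun N hN => ?_⟩
      have h2 : (1 : ℝ) < Real.logb 2 N := by
        rw [Real.lt_logb_iff_rpow_lt (by norm_num) (by positivity)]
        have : (3 : ℝ) ≤ N := by exact_mod_cast hN
        rw [Real.rpow_one]
        linarith
      apply Real.rpow_lt_rpow_of_exponent_lt (by norm_num)
      exact Real.rpow_lt_rpow_of_exponent_lt h2 (by linarith)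
    · intro A hA L hL
      exact (isP_of_reduces (hA L (pspace_relativize hL A))).isPH
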