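import Pool.Agent.Helper67.PHP.Transfer

/-!
# Changing the oracle on a set of strings: exactly the sparse sets are harmless

Long and Selman, and Balcazar, Book and Schoening, proved that adding a sparse oracle does not
change the answer to the question whether the polynomial hierarchy equals polynomial space.
The theorem below is a dichotomy for arbitrary sets `T` of strings.

* If `T` is sparse and the oracles `A`, `B` agree outside `T`, then `PH(A) = PSPACE(A)` if and only
  if `PH(B) = PSPACE(B)` (the theorem of these authors relative to an arbitrary oracle; they treat
  `B = ∅`).
* If `T` is not sparse then, for every oracle `O`, replacing the bits of `O` on `T` by the tosses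
  of a fair coin gives with probability one an oracle `A` with `PSPACE(A)` not contained in
  `PH(A)/poly`. No assumption on the computability or on the regularity of `T` is made: the numbers
  of members of `T` of length `n` may exceed every polynomial for very few `n` only, and the members
  may be scattered in an arbitrary way.

Proof of the second part: the members of `T` of length `n` are cut into intervals of equal
cardinality (in the order of the numbers of the strings); the parities of the oracle on intervals
are in polynomial space, since the end points are given as input, and `T` need not be known. The
bits outside `T` contribute constants. The switching lemma of Hastad, for blocks of polynomial size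
only (larger than the running time to the power of the number of alternations), shows that a fixed
machine with advice gives the right answers for many intervals with very small probability.

(helper67)
-/

set_option autoImplicit false

open Pool.Agent.NPC Pool.Agent.H620R2.Gauge Pool.Agent.Helper67.PHP MeasureTheory
open Pool.Agent.H628R3.RO (randomOracle)

theorem Pool.Agent.Results.MP_a2d820_lc.SparseExactly.result (T : Set (List Bool)) :
    (Sparse T → ∀ A B : Oracle, (∀ q, q ∉ T → A q = B q) →
      ((∀ L, IsPSPACE A L → IsPH A L) ↔ ∀ L, IsPSPACE B L → IsPH B L)) ∧
    (¬ Sparse T → ∀ O : Oracle, ∀ᵐ C ∂randomOracle,
      ∃ L, IsPSPACE (mix T C O) L ∧ ¬ IsPHpoly (mix T C O) L) := by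
  refine ⟨fun hT A B hAB => sparse_invariant hT hAB, fun hT O => ?_⟩
  filter_upwards [ae_hard T hT O] with C hC
  exact ⟨_, dlang_pspace _, hC⟩
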