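import Pool.Agent.Helper70K1.PHS.Uni

/-!
# PH = PSPACE if and only if languages in PSPACE have weak refuters in PH/poly

A refuter for a language `K` is a set `R` of (codes of) lists of labelled strings in which at least
one label is wrong (`Refutes K R`). `Dense R m q s` says that among any `s` strings of length `m`
there are at most `q` different ones for which `R` contains a labelling.

Theorem. For every oracle `A` (in particular for the empty one), `PSPACE ⊆ PH` relative to `A` if
and only if every `K` in `PSPACE(A)` has a refuter `R` in `PH(A)/poly` such that for some `ε > 0`,
some `c` and some functions `q` and `t`, for all large `m`, among any `2 ^ t(m)` strings of length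
`m` there are at most `q(m)` for which `R` contains a labelling, where `q(m) t(m) ≤ m ^ (1 - ε)` or
`2 ^ t(m) ≤ m ^ c`.

Examples: sketches of `m ^ (1 - ε)` bits which determine membership and have a kernel in `PH/poly`
(`q = 2`: two strings with the same sketch cannot have different labels); membership comparability
with polynomially many strings; algorithms which decide, without errors, the membership of all but
`2 ^ (m ^ (1 - ε))` strings of length `m`.

Proof. Refuted labellings of all lists of `N` strings give `PH/poly`: either labellings of all
lists of `N - 1` strings are refuted, given a few right labels as advice (a hitting set chosen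
greedily), or by majority few lists of `N - 1` strings determine membership (multiplicative
weights). For weaker refuters one considers the language of the pairs `(X, w)`, `X` a list of
`N = q t + 1` strings, for which the inner product of `w` with the truth values of `X` is 1, and
`2 ^ t` vectors `w` any `q` of which are linearly independent (Gilbert and Varshamov); any labels of
`q` of these pairs are right for some labelling of `X`. The advice is removed by the theorem of Karp
and Lipton for `PSPACE` (`Pool.Agent.Helper67.PHP.karp_lipton`).
-/

set_option autoImplicit false

open Pool.Agent.NPC Pool.Agent.H620R2.Gauge H70.PHS Filter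

theorem Pool.Agent.Results.MP_a2d820_lc.WeakRefuters.result (A : Oracle) :
    (∀ L, IsPSPACE A L → IsPH A L) ↔
      ∀ K, IsPSPACE A K → ∃ R, IsPHpoly A R ∧ Refutes K R ∧
        ∃ (ε : ℝ) (c : ℕ) (q t : ℕ → ℕ), 0 < ε ∧ ∀ᶠ m : ℕ in atTop, 1 ≤ q m ∧
          Dense R m (q m) (2 ^ t m) ∧ ((q m : ℝ) * t m ≤ (m : ℝ) ^ (1 - ε) ∨ 2 ^ t m ≤ m ^ c) := by
  constructor
  · intro H K hK
    refine ⟨RW K, (rw_ph (H K hK)).isPHpoly, rw_refutes K, 1 / 2, 0, fun _ => 1, fun _ => 0,
      by norm_num, Eventually.of_forall fun m => ⟨le_rfl, rw_dense K m, Or.inl ?_⟩⟩
    simp only [Nat.cast_zero, mul_zero]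
    exact Real.rpow_nonneg (Nat.cast_nonneg _) _
  · intro H L hL
    refine Pool.Agent.Helper67.PHP.karp_lipton (fun L hL => ?_) hL
    obtain ⟨R, hR, hRef, ε, c, q, t, hε, h⟩ := H _ (kl_pspace hL)
    exact phpoly_of_refuter hR hRef hε h
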